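import Pool.Agent.Work.MP_c9f990_an.Tg.Plane

set_option autoImplicit false

/-!
# MP_c9f990_an: the cross, and tightness
-/

namespace Pool.Agent.Work.MP_c9f990_an.Tg

open Real

variable {N : ℕ} {r : ℝ} {x y p q : Fin N → ℝ}

/-- `f` lists four agents whose velocities are different from each other and from that of `a` -/
structure Others (p q : Fin N → ℝ) (a : Fin N) (f : Fin 4 → Fin N) : Prop where
  ne : ∀ k, p (f k) ≠ p a ∨ q (f k) ≠ q a
  inj : ∀ k l, k ≠ l → p (f k) ≠ p (f l) ∨ q (f k) ≠ q (f l)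

lemma Others.swap {a : Fin N} {f : Fin 4 → Fin N} (h : Others p q a f) : Others q p a f :=
  ⟨fun k => (h.ne k).symm, fun k l hkl => (h.inj k l hkl).symm⟩

lemma Others.refl {a : Fin N} {f : Fin 4 → Fin N} (h : Others p q a f) :
    Others p (fun i => -q i) a f := by
  refine ⟨fun k => ?_, fun k l hkl => ?_⟩
  · rcases h.ne k with e | e
    · exact Or.inl e
    · exact Or.inr (fun e' => e (by simpa using e'))
  · rcases h.inj k l hkl with e | e
    · exact Or.inl e
    · exact Or.inr (fun e' => e (by simpa using e'))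

lemma fourth (i j k : Fin 4) : ∃ l, l ≠ i ∧ l ≠ j ∧ l ≠ k := by
  revert i j k
  decide

/-- horizontal and vertical neighbours exclude a diagonal neighbour -/
lemma Cfg.noHVD (h : Cfg r x y p q) (hr : π < 2 * r) {a : Fin N} {f : Fin 4 → Fin N}
    (ho : Others p q a f) {i j k : Fin 4} (hi : q (f i) = q a) (hj : p (f j) = p a)
    (hk : p (f k) - q (f k) = p a - q a) : False := by
  have hi' : p (f i) ≠ p a := (ho.ne i).resolve_right (fun e => e hi)
  have hj' : q (f j) ≠ q a := (ho.ne j).resolve_left (fun e => e hj)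
  have hk' : p (f k) ≠ p a := by
    intro e
    rcases ho.ne k with e' | e'
    · exact e' e
    · exact e' (by linarith)
  have e1 := h.hvd hr hi hi' hj hj' hk hk'
  obtain ⟨l, hli, hlj, hlk⟩ := fourth i j k
  rcases h.dir hr (ho.ne l) with e | e | e | e
  · have hl' : q (f l) ≠ q a := (ho.ne l).resolve_left (fun e' => e' e)
    have e2 := h.hvd hr hi hi' e hl' hk hk'
    rcases ho.inj l j hlj with e' | e'
    · exact e' (by rw [e, hj])
    · exact e' (by linarith)
  · have hl' : p (f l) ≠ p a := (ho.ne l).resolve_right (fun e' => e' e)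
    have e2 := h.hvd hr e hl' hj hj' hk hk'
    rcases ho.inj l i hli with e' | e'
    · exact e' (by linarith)
    · exact e' (by rw [e, hi])
  · have hl' : p (f l) ≠ p a := by
      intro e2
      rcases ho.ne l with e' | e'
      · exact e' e2
      · exact e' (by linarith)
    refine h.noD hr hk hk' e hl' ?_
    intro e2
    rcases ho.inj l k hlk with e' | e'
    · exact e' e2.symm
    · exact e' (by linarith)
  · have hl' : p (f l) ≠ p a := by
      intro e2
      rcases ho.ne l with e' | e'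
      · exact e' e2
      · exact e' (by linarith)
    have e2 := h.hva hr hi hi' hj hj' e hl'
    exact hi' (by linarith)

/-- the possible types of the four other clusters -/
lemma Cfg.types (h : Cfg r x y p q) (hr : π < 2 * r) {a : Fin N} {f : Fin 4 → Fin N}
    (ho : Others p q a f) :
    ((∃ i j, i ≠ j ∧ q (f i) = q a ∧ q (f j) = q a) ∧
      (∃ i j, i ≠ j ∧ p (f i) = p a ∧ p (f j) = p a)) ∨
    ((∃ k, p (f k) - q (f k) = p a - q a) ∧ (∃ k, p (f k) + q (f k) = p a + q a) ∧
      ((∃ i j, i ≠ j ∧ q (f i) = q a ∧ q (f j) = q a) ∨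
        (∃ i j, i ≠ j ∧ p (f i) = p a ∧ p (f j) = p a))) := by
  classical
  set sH : Finset (Fin 4) := Finset.univ.filter (fun k => q (f k) = q a) with hsH
  set sV : Finset (Fin 4) := Finset.univ.filter (fun k => p (f k) = p a) with hsV
  set sD : Finset (Fin 4) := Finset.univ.filter (fun k => p (f k) - q (f k) = p a - q a) with hsD
  set sA : Finset (Fin 4) := Finset.univ.filter (fun k => p (f k) + q (f k) = p a + q a) with hsA
  have mH : ∀ k, k ∈ sH ↔ q (f k) = q a := fun k => by simp [hsH]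
  have mV : ∀ k, k ∈ sV ↔ p (f k) = p a := fun k => by simp [hsV]
  have mD : ∀ k, k ∈ sD ↔ p (f k) - q (f k) = p a - q a := fun k => by simp [hsD]
  have mA : ∀ k, k ∈ sA ↔ p (f k) + q (f k) = p a + q a := fun k => by simp [hsA]
  have nH : ∀ k, q (f k) = q a → p (f k) ≠ p a := fun k hk =>
    (ho.ne k).resolve_right (fun e => e hk)
  have nV : ∀ k, p (f k) = p a → q (f k) ≠ q a := fun k hk =>
    (ho.ne k).resolve_left (fun e => e hk)
  have nD : ∀ k, p (f k) - q (f k) = p a - q a → p (f k) ≠ p a := fun k hk e => by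
    rcases ho.ne k with e' | e'
    · exact e' e
    · exact e' (by linarith)
  have nA : ∀ k, p (f k) + q (f k) = p a + q a → p (f k) ≠ p a := fun k hk e => by
    rcases ho.ne k with e' | e'
    · exact e' e
    · exact e' (by linarith)
  have cH : sH.card ≤ 2 := by
    by_contra hc
    rw [not_le, Finset.two_lt_card] at hc
    obtain ⟨i, hi, j, hj, k, hk, hij, hik, hjk⟩ := hc
    rw [mH] at hi hj hk
    refine h.noH hr hi (nH _ hi) hj (nH _ hj) hk (nH _ hk) ?_ ?_ ?_
    · exact (ho.inj i j hij).resolve_right (fun e => e (by rw [hi, hj]))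
    · exact (ho.inj i k hik).resolve_right (fun e => e (by rw [hi, hk]))
    · exact (ho.inj j k hjk).resolve_right (fun e => e (by rw [hj, hk]))
  have cV : sV.card ≤ 2 := by
    by_contra hc
    rw [not_le, Finset.two_lt_card] at hc
    obtain ⟨i, hi, j, hj, k, hk, hij, hik, hjk⟩ := hc
    rw [mV] at hi hj hk
    refine h.swap.noH hr hi (nV _ hi) hj (nV _ hj) hk (nV _ hk) ?_ ?_ ?_
    · exact (ho.inj i j hij).resolve_left (fun e => e (by rw [hi, hj]))
    · exact (ho.inj i k hik).resolve_left (fun e => e (by rw [hi, hk]))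
    · exact (ho.inj j k hjk).resolve_left (fun e => e (by rw [hj, hk]))
  have cD : sD.card ≤ 1 := by
    by_contra hc
    rw [not_le, Finset.one_lt_card] at hc
    obtain ⟨i, hi, j, hj, hij⟩ := hc
    rw [mD] at hi hj
    refine h.noD hr hi (nD _ hi) hj (nD _ hj) ?_
    intro e
    rcases ho.inj i j hij with e' | e'
    · exact e' e
    · exact e' (by linarith)
  have cA : sA.card ≤ 1 := by
    by_contra hc
    rw [not_le, Finset.one_lt_card] at hc
    obtain ⟨i, hi, j, hj, hij⟩ := hc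
    rw [mA] at hi hj
    refine h.refl.noD hr (a := a) (i := f i) (j := f j) (by linarith) (nA _ hi) (by linarith)
      (nA _ hj) ?_
    intro e
    rcases ho.inj i j hij with e' | e'
    · exact e' e
    · exact e' (by linarith)
  have hall : ∀ k, k ∈ sH ∨ k ∈ sV ∨ k ∈ sD ∨ k ∈ sA := by
    intro k
    rw [mH, mV, mD, mA]
    rcases h.dir hr (ho.ne k) with e | e | e | e
    · exact Or.inr (Or.inl e)
    · exact Or.inl e
    · exact Or.inr (Or.inr (Or.inl e))
    · exact Or.inr (Or.inr (Or.inr e))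
  have two : ∀ s : Finset (Fin 4), 1 < s.card → ∃ i j, i ≠ j ∧ i ∈ s ∧ j ∈ s := by
    intro s hs
    obtain ⟨i, hi, j, hj, hij⟩ := Finset.one_lt_card.1 hs
    exact ⟨i, j, hij, hi, hj⟩
  have hcard : (Finset.univ : Finset (Fin 4)).card = 4 := by simp
  by_cases hH : sH.Nonempty
  · by_cases hV : sV.Nonempty
    · left
      obtain ⟨i, hi⟩ := hH
      obtain ⟨j, hj⟩ := hV
      rw [mH] at hi
      rw [mV] at hj
      have h1 : ∀ k, k ∈ sH ∨ k ∈ sV := by
        intro k
        rcases hall k with e | e | e | e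
        · exact Or.inl e
        · exact Or.inr e
        · rw [mD] at e
          exact (h.noHVD hr ho hi hj e).elim
        · rw [mA] at e
          exact (h.refl.noHVD hr ho.refl (i := i) (j := j) (k := k) (by simp [hi]) hj
            (by linarith)).elim
      have h2 : (Finset.univ : Finset (Fin 4)) ⊆ sH ∪ sV := fun k _ => by
        rw [Finset.mem_union]
        exact h1 k
      have h3 := (Finset.card_le_card h2).trans (Finset.card_union_le _ _)
      rw [hcard] at h3
      obtain ⟨i1, j1, e1, e2, e3⟩ := two sH (by omega)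
      obtain ⟨i2, j2, e4, e5, e6⟩ := two sV (by omega)
      exact ⟨⟨i1, j1, e1, (mH _).1 e2, (mH _).1 e3⟩, ⟨i2, j2, e4, (mV _).1 e5, (mV _).1 e6⟩⟩
    · right
      have h0 : sV = ∅ := Finset.not_nonempty_iff_eq_empty.1 hV
      have h2 : (Finset.univ : Finset (Fin 4)) ⊆ (sH ∪ sD) ∪ sA := fun k _ => by
        rw [Finset.mem_union, Finset.mem_union]
        rcases hall k with e | e | e | e
        · exact Or.inl (Or.inl e)
        · rw [h0] at e
          exact absurd e (Finset.notMem_empty k)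
        · exact Or.inl (Or.inr e)
        · exact Or.inr e
      have h3 := (Finset.card_le_card h2).trans ((Finset.card_union_le _ _).trans
        (Nat.add_le_add_right (Finset.card_union_le _ _) _))
      rw [hcard] at h3
      obtain ⟨i1, j1, e1, e2, e3⟩ := two sH (by omega)
      obtain ⟨k1, hk1⟩ := Finset.card_pos.1 (by omega : 0 < sD.card)
      obtain ⟨k2, hk2⟩ := Finset.card_pos.1 (by omega : 0 < sA.card)
      exact ⟨⟨k1, (mD _).1 hk1⟩, ⟨k2, (mA _).1 hk2⟩, Or.inl ⟨i1, j1, e1, (mH _).1 e2, (mH _).1 e3⟩⟩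
  · right
    have h0 : sH = ∅ := Finset.not_nonempty_iff_eq_empty.1 hH
    have h2 : (Finset.univ : Finset (Fin 4)) ⊆ (sV ∪ sD) ∪ sA := fun k _ => by
      rw [Finset.mem_union, Finset.mem_union]
      rcases hall k with e | e | e | e
      · rw [h0] at e
        exact absurd e (Finset.notMem_empty k)
      · exact Or.inl (Or.inl e)
      · exact Or.inl (Or.inr e)
      · exact Or.inr e
    have h3 := (Finset.card_le_card h2).trans ((Finset.card_union_le _ _).trans
      (Nat.add_le_add_right (Finset.card_union_le _ _) _))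
    rw [hcard] at h3
    obtain ⟨i1, j1, e1, e2, e3⟩ := two sV (by omega)
    obtain ⟨k1, hk1⟩ := Finset.card_pos.1 (by omega : 0 < sD.card)
    obtain ⟨k2, hk2⟩ := Finset.card_pos.1 (by omega : 0 < sA.card)
    exact ⟨⟨k1, (mD _).1 hk1⟩, ⟨k2, (mA _).1 hk2⟩, Or.inr ⟨i1, j1, e1, (mV _).1 e2, (mV _).1 e3⟩⟩

/-- two horizontal neighbours: three lanes, and the agents of the cluster lie in a strip -/
lemma Cfg.rowH (h : Cfg r x y p q) (hr : π < 2 * r) {a : Fin N} {f : Fin 4 → Fin N}
    (ho : Others p q a f) (hH : ∃ i j, i ≠ j ∧ q (f i) = q a ∧ q (f j) = q a) :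
    3 * r ≤ 2 * π ∧ ∀ b, p b = p a → q b = q a →
      ∃ k : ℤ, |y a - y b - 2 * π * k| ≤ 2 * π - 3 * r := by
  obtain ⟨i, j, hij, hi, hj⟩ := hH
  have hi' : p (f i) ≠ p a := (ho.ne i).resolve_right (fun e => e hi)
  have hj' : p (f j) ≠ p a := (ho.ne j).resolve_right (fun e => e hj)
  have hij' : p (f i) ≠ p (f j) := (ho.inj i j hij).resolve_right (fun e => e (by rw [hi, hj]))
  have h1 := h.farH hr hi'.symm hi.symm
  have h2 := h.farH hr hj'.symm hj.symm
  have h3 := h.farH hr hij' (by rw [hi, hj])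
  refine ⟨three h1 h2 h3, fun b hb hb' => ?_⟩
  have h4 := h.farH hr (i := b) (j := f i) (by rw [hb]; exact hi'.symm) (by rw [hb', hi])
  have h5 := h.farH hr (i := b) (j := f j) (by rw [hb]; exact hj'.symm) (by rw [hb', hj])
  exact box hr h1 h2 h4 h5 h3

lemma Cfg.rowV (h : Cfg r x y p q) (hr : π < 2 * r) {a : Fin N} {f : Fin 4 → Fin N}
    (ho : Others p q a f) (hV : ∃ i j, i ≠ j ∧ p (f i) = p a ∧ p (f j) = p a) :
    3 * r ≤ 2 * π ∧ ∀ b, p b = p a → q b = q a →
      ∃ k : ℤ, |x a - x b - 2 * π * k| ≤ 2 * π - 3 * r := by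
  obtain ⟨h1, h2⟩ := h.swap.rowH hr ho.swap hV
  exact ⟨h1, fun b hb hb' => h2 b hb' hb⟩

lemma Cfg.winD (h : Cfg r x y p q) (hr : π < 2 * r) {a : Fin N} {f : Fin 4 → Fin N}
    (ho : Others p q a f) (hD : ∃ k, p (f k) - q (f k) = p a - q a) :
    ∀ b, p b = p a → q b = q a →
      ∃ k : ℤ, |(x a - x b) - (y a - y b) - 2 * π * k| ≤ 2 * π - 2 * (√2 * r) := by
  obtain ⟨j, hj⟩ := hD
  have hj' : p (f j) ≠ p a := by
    intro e
    rcases ho.ne j with e' | e'
    · exact e' e
    · exact e' (by linarith)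
  intro b hb hb'
  have h1 := h.farD hr hj'.symm hj.symm
  have h2 := h.farD hr (i := b) (j := f j) (by rw [hb]; exact hj'.symm) (by rw [hb, hb', hj])
  obtain ⟨k, hk⟩ := window h1 h2
  refine ⟨k, ?_⟩
  have e : x a - x b - (y a - y b) - 2 * π * k = x a - y a - (x b - y b) - 2 * π * k := by ring
  rw [e]
  exact hk

lemma Cfg.winA (h : Cfg r x y p q) (hr : π < 2 * r) {a : Fin N} {f : Fin 4 → Fin N}
    (ho : Others p q a f) (hA : ∃ k, p (f k) + q (f k) = p a + q a) :
    ∀ b, p b = p a → q b = q a →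
      ∃ k : ℤ, |(x a - x b) + (y a - y b) - 2 * π * k| ≤ 2 * π - 2 * (√2 * r) := by
  intro b hb hb'
  obtain ⟨j, hj⟩ := hA
  obtain ⟨k, hk⟩ := h.refl.winD hr ho.refl ⟨j, by linarith⟩ b hb (by simp [hb'])
  refine ⟨k, ?_⟩
  have e : x a - x b + (y a - y b) - 2 * π * k = x a - x b - (-y a - -y b) - 2 * π * k := by ring
  rw [e]
  exact hk

lemma thr_pos (h : √2 * (2 * π - 3 * r) < r) : π < 2 * r := by
  have h1 := Real.pi_pos
  have h2 := sqrt2_gt
  have h3 := sqrt2_lt
  by_contra hc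
  rw [not_lt] at hc
  nlinarith

lemma thr_e (h : √2 * (2 * π - 3 * r) < r) : 2 * π - 2 * (√2 * r) < r := by
  have h1 := Real.pi_pos
  have h2 := sqrt2_gt
  have h3 := sqrt2_lt
  have h4 : √2 * √2 = 2 := Real.mul_self_sqrt (by norm_num)
  have h5 : 2 * √2 * π < r * (1 + 3 * √2) := by linarith
  by_contra hc
  rw [not_lt] at hc
  have h6 : (1 + 2 * √2) * r ≤ 2 * π := by linarith
  have h7 := mul_le_mul_of_nonneg_right h6 (by positivity : (0 : ℝ) ≤ 1 + 3 * √2)
  have h8 := mul_lt_mul_of_pos_right h5 (by positivity : (0 : ℝ) < 1 + 2 * √2)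
  nlinarith

lemma thr_w (h : √2 * (2 * π - 3 * r) < r) :
    (2 * π - 3 * r) + (2 * π - 2 * (√2 * r)) < π := by
  have h1 := Real.pi_pos
  have h2 := sqrt2_gt
  have h3 := sqrt2_lt
  have h4 : √2 * √2 = 2 := Real.mul_self_sqrt (by norm_num)
  have h5 : 2 * √2 * π < r * (1 + 3 * √2) := by linarith
  by_contra hc
  rw [not_lt] at hc
  have h6 : (3 + 2 * √2) * r ≤ 3 * π := by linarith
  have h7 := mul_le_mul_of_nonneg_right h6 (by positivity : (0 : ℝ) ≤ 1 + 3 * √2)
  have h8 := mul_lt_mul_of_pos_right h5 (by positivity : (0 : ℝ) < 3 + 2 * √2)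
  nlinarith

/-- five clusters need three lanes, and for large radius all clusters are tight -/
theorem Cfg.tight (h : Cfg r x y p q) (hr : π < 2 * r) {a : Fin N} {f : Fin 4 → Fin N}
    (ho : Others p q a f) : 3 * r ≤ 2 * π ∧
      (√2 * (2 * π - 3 * r) < r → ∀ b, p b = p a → q b = q a →
        ∃ k l : ℤ, (x a - x b - 2 * π * k) ^ 2 + (y a - y b - 2 * π * l) ^ 2 < r ^ 2) := by
  rcases h.types hr ho with ⟨h1, h2⟩ | ⟨h1, h2, h3 | h3⟩
  · obtain ⟨g1, g2⟩ := h.rowH hr ho h1
    obtain ⟨-, g3⟩ := h.rowV hr ho h2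
    refine ⟨g1, fun ht b hb hb' => ?_⟩
    obtain ⟨l, hl⟩ := g2 b hb hb'
    obtain ⟨k, hk⟩ := g3 b hb hb'
    refine ⟨k, l, ?_⟩
    have s1 := sq_le_sq' (abs_le.1 hl).1 (abs_le.1 hl).2
    have s2 := sq_le_sq' (abs_le.1 hk).1 (abs_le.1 hk).2
    have s3 := pow_lt_pow_left₀ ht (mul_nonneg (Real.sqrt_nonneg _) (by linarith)) two_ne_zero
    rw [mul_pow, Real.sq_sqrt (by norm_num)] at s3
    linarith
  · obtain ⟨g1, g2⟩ := h.rowH hr ho h3
    refine ⟨g1, fun ht b hb hb' => ?_⟩
    obtain ⟨m, hm⟩ := g2 b hb hb'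
    obtain ⟨k, hk⟩ := h.winD hr ho h1 b hb hb'
    obtain ⟨l, hl⟩ := h.winA hr ho h2 b hb hb'
    exact arm hk hl hm (thr_w ht) (thr_e ht)
  · obtain ⟨g1, g2⟩ := h.rowV hr ho h3
    refine ⟨g1, fun ht b hb hb' => ?_⟩
    obtain ⟨m, hm⟩ := g2 b hb hb'
    obtain ⟨k, hk⟩ := h.winD hr ho h1 b hb hb'
    obtain ⟨l, hl⟩ := h.winA hr ho h2 b hb hb'
    have hk' : |(y a - y b) - (x a - x b) - 2 * π * ((-k : ℤ) : ℝ)| ≤ 2 * π - 2 * (√2 * r) := by
      rw [← abs_neg]
      push_cast
      have e : -(y a - y b - (x a - x b) - 2 * π * -(k : ℝ)) =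
        x a - x b - (y a - y b) - 2 * π * k := by ring
      rw [e]
      exact hk
    have hl' : |(y a - y b) + (x a - x b) - 2 * π * l| ≤ 2 * π - 2 * (√2 * r) := by
      rw [add_comm (y a - y b)]
      exact hl
    obtain ⟨k1, l1, e1⟩ := arm hk' hl' hm (thr_w ht) (thr_e ht)
    exact ⟨l1, k1, by linarith⟩

end Pool.Agent.Work.MP_c9f990_an.Tg
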