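import Pool.Agent.Work.MP_c9f990_an.Rg.All

set_option autoImplicit false

/-!
# MP_c9f990_an: limit configurations of a flock
-/

open MeasureTheory Set Filter Topology

namespace Pool.Agent.Work.MP_c9f990_an.Tg

open Pool.Agent.Work.MP_c9f990_an.Al

variable {n N : ℕ}

/-- if the interaction is integrable then a limit of the relative position moves on a straight
line along which the kernel vanishes -/
theorem limit_line (Φ : E n → ℝ) (hΦ : Kernel Φ) (ρ w : ℝ → E n) (u : E n)
    (hρ : ∀ t, 0 ≤ t → HasDerivWithinAt ρ (w t) (Ici 0) t) (hw : Tendsto w atTop (𝓝 u))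
    (hb : BddInt (fun t => Φ (ρ t))) (τ : ℕ → ℝ) (hτ : Tendsto τ atTop atTop)
    (m : ℕ → Fin n → ℤ) (X : E n) (hX : Tendsto (fun k => ρ (τ k) + lat (m k)) atTop (𝓝 X)) :
    ∀ s : ℝ, 0 ≤ s → Φ (X + s • u) = 0 := by
  intro s₀ hs₀
  by_contra hne
  have hpos : 0 < Φ (X + s₀ • u) := lt_of_le_of_ne (hΦ.nonneg _) (Ne.symm hne)
  obtain ⟨A, hA⟩ := I_PERB n Φ hΦ
  have hA0 : 0 ≤ A := (norm_nonneg _).trans (hA 0).2
  have hlip := I_RESOX.lip Φ hΦ A (fun x => (hA x).2)
  have hcΦ : Continuous Φ := hΦ.smooth.continuous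
  set L : ℝ := s₀ + 1 with hL
  have hL0 : 0 < L := by linarith
  set I : ℝ := ∫ s in (0 : ℝ)..L, Φ (X + s • u) with hI
  have hcont : Continuous (fun s : ℝ => Φ (X + s • u)) := by fun_prop
  have hI0 : 0 < I := by
    apply intervalIntegral.integral_pos hL0 hcont.continuousOn (fun s _ => hΦ.nonneg _)
    exact ⟨s₀, ⟨hs₀, by linarith⟩, hpos⟩
  have hcρ : ContinuousOn ρ (Ici 0) := fun t ht => (hρ t ht).continuousWithinAt
  set g : ℝ → ℝ := fun t => Φ (ρ (max t 0)) with hg
  have hcg : Continuous g := by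
    have h1 : Continuous (fun t : ℝ => ρ (max t 0)) :=
      hcρ.comp_continuous (by fun_prop) (fun t => le_max_right t 0)
    exact hcΦ.comp h1
  have hgb : BddInt g := by
    obtain ⟨B, hB⟩ := hb
    refine ⟨B, fun T hT => ?_⟩
    rw [show (∫ t in (0 : ℝ)..T, g t) = ∫ t in (0 : ℝ)..T, Φ (ρ t) from ?_]
    · exact hB T hT
    · apply intervalIntegral.integral_congr
      intro t ht
      rw [uIcc_of_le hT] at ht
      simp only [hg]
      rw [max_eq_left ht.1]
  obtain ⟨T₀, hT₀, htail⟩ := I_ENTERX.tail g hcg (fun t => hΦ.nonneg _) hgb (I / 4) (by positivity)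
  set η : ℝ := I / (4 * (A * (L + 1) * L + 1)) with hη
  have hη0 : 0 < η := by positivity
  have hη1 : A * (η * L + η) * L ≤ I / 4 := by
    have e : A * (η * L + η) * L = (A * (L + 1) * L) * I / (4 * (A * (L + 1) * L + 1)) := by
      rw [hη]
      field_simp
    rw [e, div_le_iff₀ (by positivity)]
    nlinarith [hI0]
  have ev1 : ∀ᶠ t in atTop, ‖w t - u‖ ≤ η := by
    have := (Metric.tendsto_nhds.1 hw) η hη0
    filter_upwards [this] with t ht
    rw [dist_eq_norm] at ht
    exact ht.le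
  obtain ⟨T₁, hT₁⟩ := eventually_atTop.1 ev1
  have ev2 : ∀ᶠ k in atTop, ‖ρ (τ k) + lat (m k) - X‖ ≤ η := by
    have := (Metric.tendsto_nhds.1 hX) η hη0
    filter_upwards [this] with t ht
    rw [dist_eq_norm] at ht
    exact ht.le
  obtain ⟨k, hk1, hk2⟩ := (ev2.and (hτ.eventually_ge_atTop (max T₀ (max T₁ 0)))).exists
  have hkT0 : T₀ ≤ τ k := (le_max_left _ _).trans hk2
  have hkT1 : T₁ ≤ τ k := (le_max_left _ _).trans ((le_max_right _ _).trans hk2)
  have hk0 : 0 ≤ τ k := (le_max_right _ _).trans ((le_max_right _ _).trans hk2)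
  have hpt : ∀ s ∈ Icc (0 : ℝ) L, Φ (X + s • u) ≤ g (τ k + s) + A * (η * L + η) := by
    intro s hs
    have h1 := I_RESOX.straight ρ w u η (τ k) hk0 hρ (fun t ht => hT₁ t (hkT1.trans ht)) s hs.1
    have h2 := hlip (ρ (τ k + s) + lat (m k)) (X + s • u)
    rw [hΦ.per] at h2
    have h3 : ‖X + s • u - (ρ (τ k + s) + lat (m k))‖ ≤ η * L + η := by
      have e : X + s • u - (ρ (τ k + s) + lat (m k)) =
        -(ρ (τ k + s) - (ρ (τ k) + s • u)) + -(ρ (τ k) + lat (m k) - X) := by abel
      rw [e]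
      refine (norm_add_le _ _).trans ?_
      rw [norm_neg, norm_neg]
      have : η * s ≤ η * L := mul_le_mul_of_nonneg_left hs.2 hη0.le
      linarith
    have h4 := mul_le_mul_of_nonneg_left h3 hA0
    have h5 : g (τ k + s) = Φ (ρ (τ k + s)) := by
      simp only [hg]
      rw [max_eq_left (by linarith [hs.1])]
    rw [h5]
    have h6 := (le_abs_self _).trans h2
    linarith
  have hint : I ≤ ∫ s in (0 : ℝ)..L, (g (τ k + s) + A * (η * L + η)) := by
    apply intervalIntegral.integral_mono_on hL0.le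
    · exact hcont.intervalIntegrable _ _
    · apply Continuous.intervalIntegrable
      fun_prop
    · exact hpt
  have hsplit : ∫ s in (0 : ℝ)..L, (g (τ k + s) + A * (η * L + η)) =
      (∫ t in (τ k)..(τ k + L), g t) + L * (A * (η * L + η)) := by
    rw [intervalIntegral.integral_add]
    · rw [intervalIntegral.integral_comp_add_left (fun t => g t) (τ k),
        intervalIntegral.integral_const, smul_eq_mul, sub_zero, add_zero]
    · apply Continuous.intervalIntegrable
      fun_prop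
    · exact intervalIntegrable_const
  have ht := htail (τ k) (τ k + L) hkT0 (by linarith)
  have : L * (A * (η * L + η)) = A * (η * L + η) * L := by ring
  linarith

lemma lat_neg (m : Fin n → ℤ) : (lat (-m) : E n) = -lat m := by
  ext k
  simp [lat]

lemma lat_sub' (a b : Fin n → ℤ) : (lat a : E n) - lat b = lat (a - b) := by
  ext k
  simp [lat, mul_sub]

/-- limit configurations -/
theorem limit_config (Φ : E n → ℝ) (hΦ : Kernel Φ) (x v : ℝ → C N n) (h : IsFlock Φ x v)
    (c : C N n) (hc : ∀ i, Tendsto (fun t => v t i) atTop (𝓝 (c i))) (τ : ℕ → ℝ)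
    (hτ : Tendsto τ atTop atTop) :
    ∃ (X : C N n) (φ : ℕ → ℕ) (m : ℕ → Fin N → Fin n → ℤ), StrictMono φ ∧
      (∀ i, Tendsto (fun k => x (τ (φ k)) i + lat (m k i)) atTop (𝓝 (X i))) ∧
      ∀ i j, c i ≠ c j → ∀ s : ℝ, 0 ≤ s → Φ (X i - X j + s • (c i - c j)) = 0 := by
  have hred : ∀ k i, ∃ (m : Fin n → ℤ) (y : E n),
      y ∈ Metric.closedBall (0 : E n) (Real.sqrt (n * (2 * Real.pi) ^ 2)) ∧
        x (τ k) i = y + lat m := fun k i => I_PERBX.red _
  choose m y hy hxy using hred
  have hbd : ∀ k, (fun i => y k i) ∈ Metric.closedBall (0 : C N n)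
      (Real.sqrt (n * (2 * Real.pi) ^ 2)) := by
    intro k
    rw [mem_closedBall_zero_iff, pi_norm_le_iff_of_nonneg (Real.sqrt_nonneg _)]
    intro i
    exact mem_closedBall_zero_iff.1 (hy k i)
  obtain ⟨X, -, φ, hφ, hX⟩ := tendsto_subseq_of_bounded Metric.isBounded_closedBall hbd
  have hX' : ∀ i, Tendsto (fun k => x (τ (φ k)) i + lat (-(m (φ k) i))) atTop (𝓝 (X i)) := by
    intro i
    have h1 := (tendsto_pi_nhds.1 hX) i
    refine h1.congr (fun k => ?_)
    simp only [Function.comp]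
    rw [hxy, lat_neg]
    abel
  refine ⟨X, φ, fun k i => -(m (φ k) i), hφ, hX', ?_⟩
  intro i j hij
  have hτφ : Tendsto (fun k => τ (φ k)) atTop atTop := hτ.comp hφ.tendsto_atTop
  have hder : ∀ t, 0 ≤ t → HasDerivWithinAt (fun t => x t i - x t j) (v t i - v t j) (Ici 0) t := by
    intro t ht
    have h1 := hasDerivWithinAt_pi.1 (h t ht).1
    exact (h1 i).sub (h1 j)
  have hwlim : Tendsto (fun t => v t i - v t j) atTop (𝓝 (c i - c j)) := (hc i).sub (hc j)
  have hXX : Tendsto (fun k => (fun t => x t i - x t j) (τ (φ k)) +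
      lat (-(m (φ k) i) - -(m (φ k) j))) atTop (𝓝 (X i - X j)) := by
    refine ((hX' i).sub (hX' j)).congr (fun k => ?_)
    rw [← lat_sub']
    simp only
    abel
  exact limit_line Φ hΦ _ _ _ hder hwlim (p_INTG n N Φ hΦ x v h c hc i j hij) _ hτφ _ _ hXX

/-- the kernel along the sequence converges to the kernel at the limit configuration -/
theorem limit_bond (Φ : E n → ℝ) (hΦ : Kernel Φ) (z : ℕ → C N n) (X : C N n)
    (m : ℕ → Fin N → Fin n → ℤ) (h : ∀ i, Tendsto (fun k => z k i + lat (m k i)) atTop (𝓝 (X i)))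
    (i j : Fin N) : Tendsto (fun k => Φ (z k i - z k j)) atTop (𝓝 (Φ (X i - X j))) := by
  have h1 := (hΦ.smooth.continuous.tendsto (X i - X j)).comp ((h i).sub (h j))
  refine h1.congr (fun k => ?_)
  simp only [Function.comp]
  have e : z k i + lat (m k i) - (z k j + lat (m k j)) = (z k i - z k j) + lat (m k i - m k j) := by
    rw [← lat_sub']
    abel
  rw [e, hΦ.per]

end Pool.Agent.Work.MP_c9f990_an.Tg
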