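import Pool.Agent.Work.MP_c9f990_an.Tg.Main

set_option autoImplicit false

/-!
# MP_c9f990_an: five clusters exist as long as `3 r ≤ 2 pi`
-/

open MeasureTheory Set Filter Topology

namespace Pool.Agent.Work.MP_c9f990_an.Tg

open Pool.Agent.Work.MP_c9f990_an.Al

/-- positions in units of `pi / 3` and velocities of the cross -/
def ca : Fin 5 → ℤ := ![0, 0, 0, 2, -2]
/-- second coordinates of the positions -/
def cb : Fin 5 → ℤ := ![0, 2, -2, 3, 3]
/-- first coordinates of the velocities -/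
def cp : Fin 5 → ℤ := ![0, 1, -1, 0, 0]
/-- second coordinates of the velocities -/
def cq : Fin 5 → ℤ := ![0, 0, 0, 1, -1]

lemma cross_types : ∀ i j : Fin 5, i ≠ j →
    (cq i = cq j ∧ ((cb i - cb j) % 6 = 2 ∨ (cb i - cb j) % 6 = 4)) ∨
    (cp i = cp j ∧ ((ca i - ca j) % 6 = 2 ∨ (ca i - ca j) % 6 = 4)) ∨
    (cp i - cp j = cq i - cq j ∧ ((ca i - ca j) - (cb i - cb j)) % 6 = 3) ∨
    (cp i - cp j = -(cq i - cq j) ∧ ((ca i - ca j) + (cb i - cb j)) % 6 = 3) := by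
  decide

lemma two_thirds (m l : ℤ) (h : m % 6 = 2 ∨ m % 6 = 4) :
    (2 * Real.pi / 3) ^ 2 ≤ (Real.pi / 3 * m - 2 * Real.pi * l) ^ 2 := by
  have h1 : m - 6 * l ≤ -2 ∨ 2 ≤ m - 6 * l := by omega
  have h2 : (2 : ℤ) ^ 2 ≤ (m - 6 * l) ^ 2 := by
    rcases h1 with h1 | h1 <;> nlinarith
  have h3 : (2 : ℝ) ^ 2 ≤ ((m : ℝ) - 6 * l) ^ 2 := by exact_mod_cast h2
  have e : (Real.pi / 3 * m - 2 * Real.pi * l) ^ 2 = (Real.pi / 3) ^ 2 * ((m : ℝ) - 6 * l) ^ 2 := by
    ring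
  have e2 : (2 * Real.pi / 3) ^ 2 = (Real.pi / 3) ^ 2 * 2 ^ 2 := by ring
  rw [e, e2]
  exact mul_le_mul_of_nonneg_left h3 (sq_nonneg _)

lemma odd_pi (m l : ℤ) (h : m % 6 = 3) :
    Real.pi ^ 2 ≤ (Real.pi / 3 * m - 2 * Real.pi * l) ^ 2 := by
  have h1 : m - 6 * l ≤ -3 ∨ 3 ≤ m - 6 * l := by omega
  have h2 : (3 : ℤ) ^ 2 ≤ (m - 6 * l) ^ 2 := by
    rcases h1 with h1 | h1 <;> nlinarith
  have h3 : (3 : ℝ) ^ 2 ≤ ((m : ℝ) - 6 * l) ^ 2 := by exact_mod_cast h2
  have e : (Real.pi / 3 * m - 2 * Real.pi * l) ^ 2 = (Real.pi / 3) ^ 2 * ((m : ℝ) - 6 * l) ^ 2 := by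
    ring
  have e2 : Real.pi ^ 2 = (Real.pi / 3) ^ 2 * 3 ^ 2 := by ring
  rw [e, e2]
  exact mul_le_mul_of_nonneg_left h3 (sq_nonneg _)

/-- agents of different arms never come closer than `2 pi / 3` -/
lemma cross_dist (i j : Fin 5) (hij : i ≠ j) (t : ℝ) (k l : ℤ) : (2 * Real.pi / 3) ^ 2 ≤
    (Real.pi / 3 * (ca i - ca j : ℤ) + t * (cp i - cp j : ℤ) - 2 * Real.pi * k) ^ 2 +
    (Real.pi / 3 * (cb i - cb j : ℤ) + t * (cq i - cq j : ℤ) - 2 * Real.pi * l) ^ 2 := by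
  have hpi : 0 < Real.pi ^ 2 := by positivity
  rcases cross_types i j hij with ⟨h1, h2⟩ | ⟨h1, h2⟩ | ⟨h1, h2⟩ | ⟨h1, h2⟩
  · have h3 := two_thirds _ l h2
    rw [h1, sub_self, Int.cast_zero, mul_zero, add_zero]
    nlinarith [sq_nonneg (Real.pi / 3 * (ca i - ca j : ℤ) + t * (cp i - cp j : ℤ) -
      2 * Real.pi * k)]
  · have h3 := two_thirds _ k h2
    rw [h1, sub_self, Int.cast_zero, mul_zero, add_zero]
    nlinarith [sq_nonneg (Real.pi / 3 * (cb i - cb j : ℤ) + t * (cq i - cq j : ℤ) -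
      2 * Real.pi * l)]
  · have h3 := odd_pi _ (k - l) h2
    rw [h1]
    set u : ℝ := Real.pi / 3 * (ca i - ca j : ℤ) + t * (cq i - cq j : ℤ) - 2 * Real.pi * k with hu
    set w : ℝ := Real.pi / 3 * (cb i - cb j : ℤ) + t * (cq i - cq j : ℤ) - 2 * Real.pi * l with hw
    have e : Real.pi / 3 * ((ca i - ca j - (cb i - cb j) : ℤ) : ℝ) - 2 * Real.pi * ((k - l : ℤ) : ℝ)
        = u - w := by
      rw [hu, hw]
      push_cast
      ring
    rw [e] at h3
    nlinarith [sq_nonneg (u + w)]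
  · have h3 := odd_pi _ (k + l) h2
    rw [h1]
    set u : ℝ := Real.pi / 3 * (ca i - ca j : ℤ) + t * (-(cq i - cq j) : ℤ) - 2 * Real.pi * k
      with hu
    set w : ℝ := Real.pi / 3 * (cb i - cb j : ℤ) + t * (cq i - cq j : ℤ) - 2 * Real.pi * l with hw
    have e : Real.pi / 3 * ((ca i - ca j + (cb i - cb j) : ℤ) : ℝ) - 2 * Real.pi * ((k + l : ℤ) : ℝ)
        = u + w := by
      rw [hu, hw]
      push_cast
      ring
    rw [e] at h3
    nlinarith [sq_nonneg (u - w)]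

/-- initial positions of the cross -/
noncomputable def cX : C 5 2 := fun i => WithLp.toLp 2 ![Real.pi / 3 * ca i, Real.pi / 3 * cb i]
/-- velocities of the cross -/
noncomputable def cW : C 5 2 := fun i => WithLp.toLp 2 ![(cp i : ℝ), (cq i : ℝ)]

lemma cW_inj : Function.Injective cW := by
  intro i j h
  have h0 : (cp i : ℝ) = cp j := by
    have := congrArg (fun z : E 2 => z 0) h
    simpa [cW] using this
  have h1 : (cq i : ℝ) = cq j := by
    have := congrArg (fun z : E 2 => z 1) h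
    simpa [cW] using this
  have h2 : cp i = cp j ∧ cq i = cq j := ⟨by exact_mod_cast h0, by exact_mod_cast h1⟩
  revert h2
  revert i j
  have : ∀ i j : Fin 5, cp i = cp j ∧ cq i = cq j → i = j := by decide
  intro i j _ _ _ h2
  exact this i j h2

/-- the cross is a solution with five clusters as long as `3 r ≤ 2 pi` -/
theorem five (r : ℝ) (Φ : E 2 → ℝ) (hΦ : Kernel Φ)
    (hR : ∀ z, 0 < Φ z → ∃ m : Fin 2 → ℤ, ‖z - lat m‖ < r) (hr : 3 * r ≤ 2 * Real.pi) :
    ∃ x v : ℝ → C 5 2, IsFlock Φ x v ∧ (∀ t, v t = v 0) ∧ (Set.range (v 0)).ncard = 5 := by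
  have hr0 : 0 < r := by
    obtain ⟨m, hm⟩ := hR 0 hΦ.pos
    exact (norm_nonneg _).trans_lt hm
  have hzero : ∀ (t : ℝ) (i j : Fin 5), i ≠ j →
      Φ ((cX i + t • cW i) - (cX j + t • cW j)) = 0 := by
    intro t i j hij
    by_contra hne
    obtain ⟨m, hm⟩ := hR _ (lt_of_le_of_ne (hΦ.nonneg _) (Ne.symm hne))
    have h1 := pow_lt_pow_left₀ hm (norm_nonneg _) two_ne_zero
    rw [norm_sq_two] at h1
    have h2 := cross_dist i j hij t (m 0) (m 1)
    have h3 : r ^ 2 ≤ (2 * Real.pi / 3) ^ 2 := pow_le_pow_left₀ hr0.le (by linarith) 2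
    have e0 : ((cX i + t • cW i) - (cX j + t • cW j)) 0 =
        Real.pi / 3 * (ca i - ca j : ℤ) + t * (cp i - cp j : ℤ) := by
      simp [cX, cW]
      ring
    have e1 : ((cX i + t • cW i) - (cX j + t • cW j)) 1 =
        Real.pi / 3 * (cb i - cb j : ℤ) + t * (cq i - cq j : ℤ) := by
      simp [cX, cW]
      ring
    rw [e0, e1] at h1
    linarith
  refine ⟨fun t => cX + t • cW, fun _ => cW, fun t _ => ⟨?_, ?_⟩, fun _ => rfl, ?_⟩
  · have h1 : HasDerivAt (fun t : ℝ => cX + t • cW) ((1 : ℝ) • cW) t :=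
      ((hasDerivAt_id t).smul_const cW).const_add cX
    rw [one_smul] at h1
    exact h1.hasDerivWithinAt
  · have e : force Φ (cX + t • cW, cW) = 0 := by
      funext i
      simp only [force, Pi.zero_apply]
      rw [Finset.sum_eq_zero, smul_zero]
      intro j _
      by_cases hij : i = j
      · rw [hij]
        simp
      · have := hzero t i j hij
        simp only [Pi.add_apply, Pi.smul_apply]
        rw [this, zero_smul]
    simp only [e]
    exact hasDerivWithinAt_const _ _ _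
  · have h1 : (Set.range cW).ncard = (Set.univ : Set (Fin 5)).ncard := by
      rw [← Set.image_univ]
      exact Set.ncard_image_of_injective _ cW_inj
    simp only
    rw [h1, Set.ncard_univ]
    simp

end Pool.Agent.Work.MP_c9f990_an.Tg
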