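import Mathlib

set_option autoImplicit false

/-!
# MP_c9f990_an: lanes on a circle of length `2 pi`
-/

namespace Pool.Agent.Work.MP_c9f990_an.Tg

open Real

/-- `d` keeps distance `r` from all multiples of `2 pi` -/
def Far (r d : ℝ) : Prop := ∀ k : ℤ, r ≤ |d - 2 * π * k|

variable {r : ℝ}

lemma Far.neg {d : ℝ} (h : Far r d) : Far r (-d) := by
  intro k
  have h1 := h (-k)
  push_cast at h1
  have e : -d - 2 * π * k = -(d - 2 * π * (-(k : ℝ))) := by ring
  rw [e, abs_neg]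
  exact h1

lemma Far.rep {d : ℝ} (h : Far r d) : ∃ k : ℤ, r ≤ d - 2 * π * k ∧ d - 2 * π * k ≤ 2 * π - r := by
  have hpi : 0 < 2 * π := by positivity
  have h1 := Int.floor_le (d / (2 * π))
  have h2 := Int.lt_floor_add_one (d / (2 * π))
  rw [le_div_iff₀ hpi] at h1
  rw [div_lt_iff₀ hpi] at h2
  refine ⟨⌊d / (2 * π)⌋, ?_, ?_⟩
  · have h3 := h ⌊d / (2 * π)⌋
    rwa [abs_of_nonneg (by linarith)] at h3
  · have h3 := h (⌊d / (2 * π)⌋ + 1)
    push_cast at h3
    rw [abs_of_neg (by linarith)] at h3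
    linarith

/-- two agents in front of a third one -/
lemma window {a b c : ℝ} (ha : Far r (a - c)) (hb : Far r (b - c)) :
    ∃ k : ℤ, |a - b - 2 * π * k| ≤ 2 * π - 2 * r := by
  obtain ⟨k, h1, h2⟩ := ha.rep
  obtain ⟨l, h3, h4⟩ := hb.rep
  refine ⟨k - l, ?_⟩
  push_cast
  rw [abs_le]
  constructor <;> linarith

lemma dist_rep {a p c : ℝ} (h : Far r (a - p)) (k l : ℤ) :
    r ≤ |(a - c - 2 * π * k) - (p - c - 2 * π * l)| := by
  have h1 := h (k - l)
  push_cast at h1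
  have e : a - c - 2 * π * k - (p - c - 2 * π * l) = a - p - 2 * π * (k - l) := by ring
  rw [e]
  exact h1

/-- three lanes -/
lemma three {a b c : ℝ} (hab : Far r (a - b)) (hac : Far r (a - c)) (hbc : Far r (b - c)) :
    3 * r ≤ 2 * π := by
  obtain ⟨k, h1, h2⟩ := hac.rep
  obtain ⟨l, h3, h4⟩ := hbc.rep
  have h5 := dist_rep (c := c) hab k l
  rcases le_abs.1 h5 with h | h <;> linarith

/-- four lanes -/
lemma four {a b c d : ℝ} (hab : Far r (a - b)) (hac : Far r (a - c)) (had : Far r (a - d))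
    (hbc : Far r (b - c)) (hbd : Far r (b - d)) (hcd : Far r (c - d)) : 4 * r ≤ 2 * π := by
  obtain ⟨k, h1, h2⟩ := had.rep
  obtain ⟨l, h3, h4⟩ := hbd.rep
  obtain ⟨m, h5, h6⟩ := hcd.rep
  have g1 := dist_rep (c := d) hab k l
  have g2 := dist_rep (c := d) hac k m
  have g3 := dist_rep (c := d) hbc l m
  by_contra hh
  rw [not_le] at hh
  rcases le_abs.1 g1 with g1 | g1 <;> rcases le_abs.1 g2 with g2 | g2 <;>
    rcases le_abs.1 g3 with g3 | g3 <;> linarith

/-- two agents of one cluster in a row of three lanes -/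
lemma box {a b p q : ℝ} (hr : π < 2 * r) (hap : Far r (a - p)) (haq : Far r (a - q))
    (hbp : Far r (b - p)) (hbq : Far r (b - q)) (hpq : Far r (p - q)) :
    ∃ k : ℤ, |a - b - 2 * π * k| ≤ 2 * π - 3 * r := by
  obtain ⟨k, h1, h2⟩ := haq.rep
  obtain ⟨l, h3, h4⟩ := hbq.rep
  obtain ⟨m, h5, h6⟩ := hpq.rep
  have g1 := dist_rep (c := q) hap k m
  have g2 := dist_rep (c := q) hbp l m
  refine ⟨k - l, ?_⟩
  push_cast
  rw [abs_le]
  rcases le_abs.1 g1 with g1 | g1 <;> rcases le_abs.1 g2 with g2 | g2 <;>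
    constructor <;> linarith

/-- an integer of absolute value less than `1` -/
lemma int_zero (j : ℤ) (h : 2 * π * |(j : ℝ)| < 2 * π) : j = 0 := by
  have hpi : 0 < 2 * π := by positivity
  have h1 : |(j : ℝ)| < 1 := by
    by_contra h2
    rw [not_lt] at h2
    have := mul_le_mul_of_nonneg_left h2 hpi.le
    linarith
  have h2 : |j| < 1 := by exact_mod_cast h1
  exact Int.abs_lt_one_iff.1 h2

/-- the parity argument: `δ = x - y`, `σ = x + y` -/
lemma parity {x y w e : ℝ} {k l m : ℤ} (h1 : |x - y - 2 * π * k| ≤ e) (h2 : |x + y - 2 * π * l| ≤ e)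
    (h3 : |y - 2 * π * m| ≤ w) (h : w + e < π) : l = k + 2 * m := by
  have h0 : l - k - 2 * m = 0 := by
    apply int_zero
    push_cast
    rw [← abs_of_pos (by positivity : (0 : ℝ) < 2 * π), ← abs_mul,
      abs_of_pos (by positivity : (0 : ℝ) < 2 * π)]
    rw [abs_le] at h1 h2 h3
    rw [abs_lt]
    constructor <;> linarith
  omega

/-- the point is close to the lattice: arms -/
lemma arm {x y w e r : ℝ} {k l m : ℤ} (h1 : |x - y - 2 * π * k| ≤ e)
    (h2 : |x + y - 2 * π * l| ≤ e) (h3 : |y - 2 * π * m| ≤ w) (h : w + e < π) (he : e < r) :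
    ∃ k' l' : ℤ, (x - 2 * π * k') ^ 2 + (y - 2 * π * l') ^ 2 < r ^ 2 := by
  have hp := parity h1 h2 h3 h
  have e0 : 0 ≤ e := (abs_nonneg _).trans h1
  refine ⟨m + k, m, ?_⟩
  have s1 := sq_le_sq' (abs_le.1 h1).1 (abs_le.1 h1).2
  have s2 := sq_le_sq' (abs_le.1 h2).1 (abs_le.1 h2).2
  rw [hp] at s2
  push_cast at s2 ⊢
  have e1 : (x - 2 * π * (m + k)) ^ 2 + (y - 2 * π * m) ^ 2 =
      ((x - y - 2 * π * k) ^ 2 + (x + y - 2 * π * (k + 2 * m)) ^ 2) / 2 := by ring
  rw [e1]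
  nlinarith

end Pool.Agent.Work.MP_c9f990_an.Tg
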