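import Pool.Agent.Work.MP_c9f990_an.Tg.Cross
import Pool.Agent.Work.MP_c9f990_an.Tg.Dyn

set_option autoImplicit false

/-!
# MP_c9f990_an: at most four clusters on the plane torus for large radius
-/

open MeasureTheory Set Filter Topology

namespace Pool.Agent.Work.MP_c9f990_an.Tg

open Pool.Agent.Work.MP_c9f990_an.Al

variable {N : ℕ}

/-- the kernel is positive at all points of distance less than `r` from the lattice -/
def Range (r : ℝ) (Φ : E 2 → ℝ) : Prop := ∀ (z : E 2) (m : Fin 2 → ℤ), ‖z - lat m‖ < r → 0 < Φ z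

lemma range_of {r : ℝ} {Φ : E 2 → ℝ} (hΦ : Kernel Φ) (h : ∀ z, ‖z‖ < r → 0 < Φ z) :
    Range r Φ := by
  intro z m hz
  have h1 := h _ hz
  rwa [← hΦ.per m, sub_add_cancel] at h1

lemma norm_sq_two (z : E 2) (m : Fin 2 → ℤ) : ‖z - lat m‖ ^ 2 =
    (z 0 - 2 * Real.pi * m 0) ^ 2 + (z 1 - 2 * Real.pi * m 1) ^ 2 := by
  rw [EuclideanSpace.norm_sq_eq, Fin.sum_univ_two, Real.norm_eq_abs, Real.norm_eq_abs, sq_abs,
    sq_abs]
  simp [lat]

/-- four agents with different velocities -/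
lemma exists_others (c : C N 2) (a : Fin N) (h : 4 < (Set.range c).ncard) :
    ∃ f : Fin 4 → Fin N, Others (fun i => c i 0) (fun i => c i 1) a f := by
  classical
  have hne : ∀ i j, c i ≠ c j → c i 0 ≠ c j 0 ∨ c i 1 ≠ c j 1 := by
    intro i j hij
    by_contra hh
    simp only [not_or, not_not] at hh
    apply hij
    ext k
    fin_cases k
    · exact hh.1
    · exact hh.2
  set s : Finset (E 2) := (Finset.univ.image c).erase (c a) with hs
  have hcard : 4 ≤ s.card := by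
    have h1 : (Set.range c).ncard = (Finset.univ.image c).card := by
      rw [← Set.ncard_coe_finset]
      congr 1
      ext z
      simp
    have h2 : (Finset.univ.image c).card - 1 ≤ s.card := Finset.pred_card_le_card_erase
    omega
  obtain ⟨t, ht, htc⟩ := Finset.exists_subset_card_eq hcard
  let e := (Finset.equivFinOfCardEq htc).symm
  have hmem : ∀ k, (e k : E 2) ∈ s := fun k => ht (e k).2
  have hex : ∀ k, ∃ i, c i = (e k : E 2) := by
    intro k
    have h3 := Finset.mem_of_mem_erase (hmem k)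
    obtain ⟨i, -, hi⟩ := Finset.mem_image.1 h3
    exact ⟨i, hi⟩
  choose f hf using hex
  refine ⟨f, ⟨fun k => hne _ _ ?_, fun k l hkl => hne _ _ ?_⟩⟩
  · rw [hf]
    exact Finset.ne_of_mem_erase (hmem k)
  · rw [hf, hf]
    intro h4
    exact hkl (e.injective (Subtype.ext h4))

/-- the plane geometry applied to a limit configuration -/
theorem geometry (r : ℝ) (Φ : E 2 → ℝ) (hR : Range r Φ) (X c : C N 2)
    (hX : ∀ i j, c i ≠ c j → ∀ s : ℝ, 0 ≤ s → Φ (X i - X j + s • (c i - c j)) = 0)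
    (h5 : 4 < (Set.range c).ncard) (hr : Real.pi < 2 * r) (a : Fin N) :
    3 * r ≤ 2 * Real.pi ∧ (√2 * (2 * Real.pi - 3 * r) < r → ∀ b, c b = c a → 0 < Φ (X a - X b)) := by
  have hcfg : Cfg r (fun i => X i 0) (fun i => X i 1) (fun i => c i 0) (fun i => c i 1) := by
    intro i j hij s hs k l
    have hne : c i ≠ c j := by
      intro e
      rcases hij with e' | e'
      · exact e' (by simp only [e])
      · exact e' (by simp only [e])
    have h1 := hX i j hne s hs
    have h2 : ¬ ‖X i - X j + s • (c i - c j) - lat ![k, l]‖ < r := by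
      intro h3
      have h4 := hR _ _ h3
      rw [h1] at h4
      exact lt_irrefl _ h4
    rw [not_lt] at h2
    have h3 := pow_le_pow_left₀ (pos_of hr).le h2 2
    rw [norm_sq_two] at h3
    simpa using h3
  obtain ⟨f, hf⟩ := exists_others c a h5
  obtain ⟨g1, g2⟩ := hcfg.tight hr hf
  refine ⟨g1, fun ht b hb => ?_⟩
  obtain ⟨k, l, hkl⟩ := g2 ht b (by rw [hb]) (by rw [hb])
  apply hR _ ![k, l]
  apply lt_of_pow_lt_pow_left₀ 2 (pos_of hr).le
  rw [norm_sq_two]
  simpa using hkl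

/-- for `3 r > 2 pi` every solution has at most four clusters -/
theorem deterministic (r : ℝ) (Φ : E 2 → ℝ) (hΦ : Kernel Φ) (hR : Range r Φ)
    (hr : 2 * Real.pi < 3 * r) (x v : ℝ → C N 2) (h : IsFlock Φ x v) :
    ∃ c : C N 2, (∀ i, Tendsto (fun t => v t i) atTop (𝓝 (c i))) ∧ (Set.range c).ncard ≤ 4 := by
  obtain ⟨c, hc⟩ := p_CONV 2 N Φ hΦ x v h
  refine ⟨c, hc, ?_⟩
  by_contra h5
  rw [not_le] at h5
  have hN : 0 < N := by
    rcases Nat.eq_zero_or_pos N with h0 | h0
    · subst h0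
      have : Set.range c = ∅ := Set.range_eq_empty c
      rw [this] at h5
      simp at h5
    · exact h0
  obtain ⟨X, φ, m, -, -, hX⟩ := limit_config Φ hΦ x v h c hc (fun k => (k : ℝ))
    tendsto_natCast_atTop_atTop
  have hpi := Real.pi_pos
  have h6 := (geometry r Φ hR X c hX h5 (by linarith) ⟨0, hN⟩).1
  linarith

/-- tightness excludes loose clusters -/
theorem generic (r : ℝ) (Φ : E 2 → ℝ) (hΦ : Kernel Φ) (hR : Range r Φ) (hL : LipGrad Φ)
    (hr : √2 * (2 * Real.pi - 3 * r) < r) :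
    ∀ᵐ z : P N 2, ∀ x v : ℝ → C N 2, IsFlock Φ x v → (x 0, v 0) = z →
      ∃ c : C N 2, (∀ i, Tendsto (fun t => v t i) atTop (𝓝 (c i))) ∧
        (Set.range c).ncard ≤ 4 := by
  filter_upwards [all_generalR 2 N Φ hΦ hL] with z hz
  intro x v hxv h0
  obtain ⟨c, hc, _, _, _, h⟩ := hz x v hxv h0
  refine ⟨c, hc, ?_⟩
  rcases h with h | h
  · have : (Set.range c).ncard ≤ 1 := by
      rw [Set.ncard_le_one]
      rintro _ ⟨i, rfl⟩ _ ⟨j, rfl⟩
      exact h i j
    omega
  · by_contra h5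
    rw [not_le] at h5
    obtain ⟨A, hA1, ⟨a, ha, b, hb, hab⟩, hA3⟩ := h
    have hseq : ∀ k : ℕ, ∃ t, (k : ℝ) ≤ t ∧ Φ (x t a - x t b) < 1 / ((k : ℝ) + 1) := by
      intro k
      obtain ⟨t, ht, ht2⟩ := hA3 (1 / ((k : ℝ) + 1)) (by positivity) k
      exact ⟨t, ht, ht2 a ha b hb hab⟩
    choose τ hτ1 hτ2 using hseq
    have hτ : Tendsto τ atTop atTop := tendsto_atTop_mono hτ1 tendsto_natCast_atTop_atTop
    obtain ⟨X, φ, m, hφ, hXm, hX⟩ := limit_config Φ hΦ x v hxv c hc τ hτ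
    have hpos := (geometry r Φ hR X c hX h5 (thr_pos hr) a).2 hr b hab
    have hlim := limit_bond Φ hΦ (fun k => x (τ (φ k))) X m hXm a b
    have hzero : Tendsto (fun k => Φ (x (τ (φ k)) a - x (τ (φ k)) b)) atTop (𝓝 0) := by
      have h1 : Tendsto (fun k : ℕ => 1 / (((φ k : ℕ) : ℝ) + 1)) atTop (𝓝 0) :=
        tendsto_one_div_add_atTop_nhds_zero_nat.comp hφ.tendsto_atTop
      exact squeeze_zero (fun k => hΦ.nonneg _) (fun k => (hτ2 (φ k)).le) h1
    have := tendsto_nhds_unique hlim hzero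
    linarith

end Pool.Agent.Work.MP_c9f990_an.Tg
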