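import Pool.Agent.Work.MP_c9f990_an.Tg.Ray
import Pool.Agent.Work.MP_c9f990_an.Tg.Lanes

set_option autoImplicit false

/-!
# MP_c9f990_an: five clusters in the plane with large radius form a cross, and are tight
-/

namespace Pool.Agent.Work.MP_c9f990_an.Tg

open Real

variable {N : ℕ} {r : ℝ} {x y p q : Fin N → ℝ}

/-- agents with positions `(x i, y i)` and velocities `(p i, q i)`; agents with different
velocities keep distance `r` forever -/
def Cfg (r : ℝ) (x y p q : Fin N → ℝ) : Prop :=
  ∀ i j, (p i ≠ p j ∨ q i ≠ q j) → Av r (x i - x j) (y i - y j) (p i - p j) (q i - q j)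

lemma pos_of (hr : π < 2 * r) : 0 < r := by
  have := Real.pi_pos
  linarith

lemma five_of (hr : π < 2 * r) : π ^ 2 < 5 * r ^ 2 := by
  have h1 := Real.pi_pos
  nlinarith

lemma sqrt2_gt : (1.4 : ℝ) < √2 := by
  rw [Real.lt_sqrt (by norm_num)]
  norm_num

lemma sqrt2_lt : √2 < (1.5 : ℝ) := by
  rw [Real.sqrt_lt' (by norm_num)]
  norm_num

lemma Cfg.dir (h : Cfg r x y p q) (hr : π < 2 * r) {i j : Fin N} (hij : p i ≠ p j ∨ q i ≠ q j) :
    p i = p j ∨ q i = q j ∨ p i - q i = p j - q j ∨ p i + q i = p j + q j := by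
  rcases (h i j hij).dir (pos_of hr) (five_of hr) with h1 | h1 | h1 | h1
  · exact Or.inl (by linarith)
  · exact Or.inr (Or.inl (by linarith))
  · exact Or.inr (Or.inr (Or.inl (by linarith)))
  · exact Or.inr (Or.inr (Or.inr (by linarith)))

lemma Cfg.farH (h : Cfg r x y p q) (hr : π < 2 * r) {i j : Fin N} (h1 : p i ≠ p j)
    (h2 : q i = q j) : Far r (y i - y j) := by
  have h3 := h i j (Or.inl h1)
  rw [h2, sub_self] at h3
  intro k
  exact h3.row (sub_ne_zero.2 h1) (pos_of hr).le k

lemma Cfg.farV (h : Cfg r x y p q) (hr : π < 2 * r) {i j : Fin N} (h1 : q i ≠ q j)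
    (h2 : p i = p j) : Far r (x i - x j) := by
  have h3 := h i j (Or.inr h1)
  rw [h2, sub_self] at h3
  intro k
  exact h3.col (sub_ne_zero.2 h1) (pos_of hr).le k

lemma Cfg.farD (h : Cfg r x y p q) (hr : π < 2 * r) {i j : Fin N} (h1 : p i ≠ p j)
    (h2 : p i - q i = p j - q j) : Far (√2 * r) ((x i - y i) - (x j - y j)) := by
  have h3 := h i j (Or.inl h1)
  have e : q i - q j = p i - p j := by linarith
  rw [e] at h3
  intro k
  have h4 := h3.diag (sub_ne_zero.2 h1) (pos_of hr).le k
  have e2 : x i - x j - (y i - y j) = x i - y i - (x j - y j) := by ring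
  rwa [e2] at h4

lemma Cfg.farA (h : Cfg r x y p q) (hr : π < 2 * r) {i j : Fin N} (h1 : p i ≠ p j)
    (h2 : p i + q i = p j + q j) : Far (√2 * r) ((x i + y i) - (x j + y j)) := by
  have h3 := h i j (Or.inl h1)
  have e : q i - q j = -(p i - p j) := by linarith
  rw [e] at h3
  intro k
  have h4 := h3.anti (sub_ne_zero.2 h1) (pos_of hr).le k
  have e2 : x i - x j + (y i - y j) = x i + y i - (x j + y j) := by ring
  rwa [e2] at h4

/-- horizontal, vertical and diagonal neighbour of a point -/
lemma hvd {a b c : ℝ} (ha : a ≠ 0) (hb : b ≠ 0) (hc : c ≠ 0)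
    (h1 : a = 0 ∨ (0 : ℝ) = b ∨ a - 0 = 0 - b ∨ a + 0 = 0 + b)
    (h2 : c = a ∨ c = 0 ∨ c - c = a - 0 ∨ c + c = a + 0)
    (h3 : c = 0 ∨ c = b ∨ c - c = 0 - b ∨ c + c = 0 + b) : a = b := by
  by_contra hab
  have e1 : a = -b := by
    rcases h1 with h | h | h | h
    · exact absurd h ha
    · exact absurd h.symm hb
    · linarith
    · exact absurd (by linarith) hab
  have e2 : c = a ∨ 2 * c = a := by
    rcases h2 with h | h | h | h
    · exact Or.inl h
    · exact absurd h hc
    · exact absurd (by linarith) ha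
    · exact Or.inr (by linarith)
  have e3 : c = b ∨ 2 * c = b := by
    rcases h3 with h | h | h | h
    · exact absurd h hc
    · exact Or.inl h
    · exact absurd (by linarith) hb
    · exact Or.inr (by linarith)
  rcases e2 with e2 | e2 <;> rcases e3 with e3 | e3 <;> exact hb (by linarith)

/-- relative version of `hvd` -/
lemma Cfg.hvd (h : Cfg r x y p q) (hr : π < 2 * r) {a i j k : Fin N}
    (hi : q i = q a) (hi' : p i ≠ p a) (hj : p j = p a) (hj' : q j ≠ q a)
    (hk : p k - q k = p a - q a) (hk' : p k ≠ p a) : p i - p a = q j - q a := by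
  have hij := h.dir hr (i := i) (j := j) (Or.inl (by rw [hj]; exact hi'))
  have hki : p k ≠ p i ∨ q k ≠ q i := Or.inr (fun e => hk' (by linarith))
  have hkj : p k ≠ p j ∨ q k ≠ q j := Or.inl (by rw [hj]; exact hk')
  have hki := h.dir hr hki
  have hkj := h.dir hr hkj
  apply Tg.hvd (c := p k - p a) (sub_ne_zero.2 hi') (sub_ne_zero.2 hj') (sub_ne_zero.2 hk')
  · rcases hij with e | e | e | e
    · exact Or.inl (by linarith)
    · exact Or.inr (Or.inl (by linarith))
    · exact Or.inr (Or.inr (Or.inl (by linarith)))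
    · exact Or.inr (Or.inr (Or.inr (by linarith)))
  · rcases hki with e | e | e | e
    · exact Or.inl (by linarith)
    · exact Or.inr (Or.inl (by linarith))
    · exact Or.inr (Or.inr (Or.inl (by linarith)))
    · exact Or.inr (Or.inr (Or.inr (by linarith)))
  · rcases hkj with e | e | e | e
    · exact Or.inl (by linarith)
    · exact Or.inr (Or.inl (by linarith))
    · exact Or.inr (Or.inr (Or.inl (by linarith)))
    · exact Or.inr (Or.inr (Or.inr (by linarith)))

/-- reflection `y ↦ -y` -/
lemma Cfg.refl (h : Cfg r x y p q) : Cfg r x (fun i => -y i) p (fun i => -q i) := by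
  intro i j hij
  have h1 : p i ≠ p j ∨ q i ≠ q j := by
    rcases hij with e | e
    · exact Or.inl e
    · exact Or.inr (fun e' => e (by simp [e']))
  have h2 := (h i j h1).neg2
  have e1 : -(y i - y j) = -y i - -y j := by ring
  have e2 : -(q i - q j) = -q i - -q j := by ring
  rw [e1, e2] at h2
  exact h2

lemma Cfg.swap (h : Cfg r x y p q) : Cfg r y x q p := by
  intro i j hij
  exact (h i j hij.symm).swap

/-- horizontal, vertical and antidiagonal neighbour of a point -/
lemma Cfg.hva (h : Cfg r x y p q) (hr : π < 2 * r) {a i j k : Fin N}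
    (hi : q i = q a) (hi' : p i ≠ p a) (hj : p j = p a) (hj' : q j ≠ q a)
    (hk : p k + q k = p a + q a) (hk' : p k ≠ p a) : p i - p a = -(q j - q a) := by
  have h1 := h.refl.hvd hr (a := a) (i := i) (j := j) (k := k) (by simp [hi]) hi' hj
    (by simpa using hj') (by linarith) hk'
  linarith

/-- at most two horizontal neighbours -/
lemma Cfg.noH (h : Cfg r x y p q) (hr : π < 2 * r) {a i j k : Fin N}
    (hi : q i = q a) (hi' : p i ≠ p a) (hj : q j = q a) (hj' : p j ≠ p a)
    (hk : q k = q a) (hk' : p k ≠ p a) (hij : p i ≠ p j) (hik : p i ≠ p k) (hjk : p j ≠ p k) :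
    False := by
  have := four (h.farH hr hi' hi) (h.farH hr hij (by rw [hi, hj])) (h.farH hr hik (by rw [hi, hk]))
    (h.farH hr hj'.symm hj.symm) (h.farH hr hk'.symm hk.symm) (h.farH hr hjk (by rw [hj, hk]))
  have := Real.pi_pos
  linarith

/-- at most one diagonal neighbour -/
lemma Cfg.noD (h : Cfg r x y p q) (hr : π < 2 * r) {a i j : Fin N}
    (hi : p i - q i = p a - q a) (hi' : p i ≠ p a) (hj : p j - q j = p a - q a) (hj' : p j ≠ p a)
    (hij : p i ≠ p j) : False := by
  have h1 := three (h.farD hr hi' hi) (h.farD hr hij (by rw [hi, hj])) (h.farD hr hj'.symm hj.symm)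
  have h2 := Real.pi_pos
  have h3 := sqrt2_gt
  nlinarith

end Pool.Agent.Work.MP_c9f990_an.Tg
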