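import Mathlib

set_option autoImplicit false

/-!
# MP_c9f990_an: rays in the plane which avoid a ball around the lattice `2 pi Z^2`
-/

namespace Pool.Agent.Work.MP_c9f990_an.Tg

open Real

/-- the ray from `(x, y)` in direction `(u, v)` keeps distance `r` from the lattice -/
def Av (r x y u v : ℝ) : Prop := ∀ s : ℝ, 0 ≤ s → ∀ k l : ℤ,
  r ^ 2 ≤ (x + s * u - 2 * π * k) ^ 2 + (y + s * v - 2 * π * l) ^ 2

variable {r x y u v : ℝ}

lemma Av.neg1 (h : Av r x y u v) : Av r (-x) y (-u) v := by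
  intro s hs k l
  have h1 := h s hs (-k) l
  push_cast at h1
  have e : (-x + s * -u - 2 * π * k) ^ 2 = (x + s * u - 2 * π * (-(k : ℝ))) ^ 2 := by ring
  rw [e]
  exact h1

lemma Av.swap (h : Av r x y u v) : Av r y x v u := by
  intro s hs k l
  have h1 := h s hs l k
  linarith

lemma Av.neg2 (h : Av r x y u v) : Av r x (-y) u (-v) := (h.swap.neg1).swap

/-- a multiple of `2 pi` far ahead -/
lemma ahead (x u B : ℝ) (hu : u ≠ 0) : ∃ (k : ℤ) (s : ℝ), B ≤ s ∧ x + s * u = 2 * π * k := by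
  have hpi : 0 < 2 * π := by positivity
  rcases lt_or_gt_of_ne hu with h | h
  · refine ⟨⌊(x + B * u) / (2 * π)⌋, (2 * π * ⌊(x + B * u) / (2 * π)⌋ - x) / u, ?_, ?_⟩
    · have h1 := Int.floor_le ((x + B * u) / (2 * π))
      rw [le_div_iff₀ hpi] at h1
      rw [le_div_iff_of_neg h]
      linarith
    · field_simp
      ring
  · refine ⟨⌈(x + B * u) / (2 * π)⌉, (2 * π * ⌈(x + B * u) / (2 * π)⌉ - x) / u, ?_, ?_⟩
    · have h1 := Int.le_ceil ((x + B * u) / (2 * π))
      rw [div_le_iff₀ hpi] at h1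
      rw [le_div_iff₀ h]
      linarith
    · field_simp
      ring

lemma Av.row (h : Av r x y u 0) (hu : u ≠ 0) (hr : 0 ≤ r) (l : ℤ) : r ≤ |y - 2 * π * l| := by
  obtain ⟨k, s, hs, e⟩ := ahead x u 0 hu
  have h1 := h s hs k l
  have h2 : r ^ 2 ≤ (y - 2 * π * l) ^ 2 := by
    rw [e] at h1
    simpa using h1
  have h3 := sq_le_sq.1 h2
  rwa [abs_of_nonneg hr] at h3

lemma Av.col (h : Av r x y 0 v) (hv : v ≠ 0) (hr : 0 ≤ r) (k : ℤ) : r ≤ |x - 2 * π * k| :=
  h.swap.row hv hr k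

lemma Av.diag (h : Av r x y u u) (hu : u ≠ 0) (hr : 0 ≤ r) (k : ℤ) :
    √2 * r ≤ |x - y - 2 * π * k| := by
  obtain ⟨m, s, hs, e⟩ := ahead (x - (x - y - 2 * π * k) / 2) u 0 hu
  have h1 := h s hs m (m - k)
  push_cast at h1
  have e1 : x + s * u - 2 * π * m = (x - y - 2 * π * k) / 2 := by linarith
  have e2 : y + s * u - 2 * π * (m - k) = -((x - y - 2 * π * k) / 2) := by linarith
  rw [e1, e2] at h1
  have h2 : (√2 * r) ^ 2 ≤ (x - y - 2 * π * k) ^ 2 := by
    rw [mul_pow, Real.sq_sqrt (by norm_num)]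
    nlinarith
  have h3 := sq_le_sq.1 h2
  rwa [abs_of_nonneg (by positivity)] at h3

lemma Av.anti (h : Av r x y u (-u)) (hu : u ≠ 0) (hr : 0 ≤ r) (k : ℤ) :
    √2 * r ≤ |x + y - 2 * π * k| := by
  have h1 := h.neg2
  rw [neg_neg] at h1
  have h2 := h1.diag hu hr k
  rwa [sub_neg_eq_add] at h2

/-- an arithmetic progression which jumps over all intervals of radius `C` around `2 pi Z` -/
lemma jump (β τ C : ℝ) (a₁ : ℕ) (hτ : 0 < τ) (hC : 0 ≤ C)
    (h : ∀ a : ℕ, a₁ ≤ a → ∀ b : ℤ, C ^ 2 ≤ (β + a * τ - 2 * π * b) ^ 2) : 2 * C ≤ τ := by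
  have hpi : 0 < 2 * π := by positivity
  obtain ⟨b, hb⟩ := exists_int_gt ((β + a₁ * τ) / (2 * π))
  rw [div_lt_iff₀ hpi] at hb
  have hex : ∃ a : ℕ, a₁ ≤ a ∧ (b : ℝ) * (2 * π) ≤ β + a * τ := by
    obtain ⟨a, ha⟩ := exists_nat_gt ((b * (2 * π) - β) / τ)
    rw [div_lt_iff₀ hτ] at ha
    refine ⟨max a a₁, le_max_right _ _, ?_⟩
    have h1 : (a : ℝ) ≤ (max a a₁ : ℕ) := by exact_mod_cast le_max_left _ _
    have h2 := mul_le_mul_of_nonneg_right h1 hτ.le
    linarith
  classical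
  obtain ⟨a, ha⟩ : ∃ a, a = Nat.find hex := ⟨_, rfl⟩
  obtain ⟨h1, h2⟩ := Nat.find_spec hex
  rw [← ha] at h1 h2
  have hne : a ≠ a₁ := by
    intro he
    rw [he] at h2
    linarith
  obtain ⟨a', rfl⟩ : ∃ a', a = a' + 1 := ⟨a - 1, by omega⟩
  have h3 : a₁ ≤ a' := by omega
  have h4 : ¬ (a₁ ≤ a' ∧ (b : ℝ) * (2 * π) ≤ β + a' * τ) :=
    Nat.find_min hex (by rw [← ha]; omega)
  have h5 : β + a' * τ < b * (2 * π) := by
    by_contra h6
    exact h4 ⟨h3, not_lt.1 h6⟩
  have h6 := sq_le_sq.1 (h (a' + 1) h1 b)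
  have h7 := sq_le_sq.1 (h a' h3 b)
  rw [abs_of_nonneg hC] at h6 h7
  rw [abs_of_nonneg (by push_cast; push_cast at h2; linarith)] at h6
  rw [abs_of_neg (by linarith)] at h7
  push_cast at h6
  linarith

/-- slopes between `0` and `1` are impossible for large radius -/
lemma noDir (hv : 0 < v) (hvu : v < u) (hr : 0 < r) (h5 : π ^ 2 < 5 * r ^ 2)
    (h : Av r x y u v) : False := by
  have hpi : 0 < π := Real.pi_pos
  have hu : 0 < u := hv.trans hvu
  set q : ℝ := u ^ 2 + v ^ 2 with hq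
  have hq0 : 0 < q := by positivity
  set C : ℝ := r * √q / u with hC
  have hC0 : 0 < C := by positivity
  have hC2 : C ^ 2 * u ^ 2 = r ^ 2 * q := by
    rw [hC, div_pow, mul_pow, Real.sq_sqrt hq0.le]
    field_simp
  set B : ℝ := C * v / q with hB
  obtain ⟨a₁, ha₁⟩ := exists_nat_gt ((x + B * u) / (2 * π))
  rw [div_lt_iff₀ (by positivity)] at ha₁
  have key : ∀ a : ℕ, a₁ ≤ a → ∀ b : ℤ,
      C ^ 2 ≤ (y - x * v / u + a * (2 * π * v / u) - 2 * π * b) ^ 2 := by
    intro a ha b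
    set g : ℝ := y - x * v / u + a * (2 * π * v / u) - 2 * π * b with hg
    by_contra hlt
    rw [not_le] at hlt
    have hg1 : |g| < C := by
      have := sq_lt_sq.1 hlt
      rwa [abs_of_pos hC0] at this
    have haa : (a₁ : ℝ) ≤ a := by exact_mod_cast ha
    have hs1 : B ≤ (2 * π * a - x) / u := by
      rw [le_div_iff₀ hu]
      have := mul_le_mul_of_nonneg_right haa (by positivity : (0 : ℝ) ≤ 2 * π)
      linarith
    have hs2 : g * v / q ≤ B := by
      rw [hB]
      apply div_le_div_of_nonneg_right _ hq0.le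
      apply mul_le_mul_of_nonneg_right _ hv.le
      exact (le_abs_self g).trans hg1.le
    have h1 := h ((2 * π * a - x) / u - g * v / q) (by linarith) a b
    have e1 : x + ((2 * π * a - x) / u - g * v / q) * u - 2 * π * (a : ℤ) = -(g * v * u / q) := by
      push_cast
      field_simp
      ring
    have e2 : y + ((2 * π * a - x) / u - g * v / q) * v - 2 * π * b = g * u ^ 2 / q := by
      have e3 : y + ((2 * π * a - x) / u - g * v / q) * v - 2 * π * b = g - g * v ^ 2 / q := by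
        rw [hg]
        field_simp
        ring
      rw [e3, hq]
      field_simp
      ring
    rw [e1, e2] at h1
    have e4 : (-(g * v * u / q)) ^ 2 + (g * u ^ 2 / q) ^ 2 = g ^ 2 * u ^ 2 / q := by
      have : (-(g * v * u / q)) ^ 2 + (g * u ^ 2 / q) ^ 2 = g ^ 2 * u ^ 2 * (u ^ 2 + v ^ 2) / q ^ 2 := by
        ring
      rw [this, ← hq]
      field_simp
    rw [e4, le_div_iff₀ hq0, ← hC2] at h1
    have h2 : C ^ 2 * u ^ 2 ≤ g ^ 2 * u ^ 2 := h1
    have h3 := le_of_mul_le_mul_right h2 (by positivity)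
    linarith
  have j1 := jump _ _ C a₁ (by positivity) hC0.le key
  have j2 := jump (-(y - x * v / u)) (2 * π - 2 * π * v / u) C a₁ (by
      rw [sub_pos, div_lt_iff₀ hu]
      exact mul_lt_mul_of_pos_left hvu (by positivity)) hC0.le (by
    intro a ha b
    have := key a ha (a - b)
    push_cast at this
    have e : (-(y - x * v / u) + a * (2 * π - 2 * π * v / u) - 2 * π * b) ^ 2 =
      (y - x * v / u + a * (2 * π * v / u) - 2 * π * (a - b)) ^ 2 := by ring
    rw [e]
    exact this)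
  have k1 : r * √q ≤ π * v := by
    have : C ≤ π * v / u := by
      have : π * v / u = (2 * π * v / u) / 2 := by ring
      linarith
    rw [hC, div_le_div_iff_of_pos_right hu] at this
    exact this
  have k2 : r * √q ≤ π * (u - v) := by
    have : C ≤ π * (u - v) / u := by
      have : π * (u - v) / u = (2 * π - 2 * π * v / u) / 2 := by
        field_simp
      linarith
    rw [hC, div_le_div_iff_of_pos_right hu] at this
    exact this
  have s1 : r ^ 2 * q ≤ π ^ 2 * v ^ 2 := by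
    have := pow_le_pow_left₀ (by positivity) k1 2
    rw [mul_pow, mul_pow, Real.sq_sqrt hq0.le] at this
    exact this
  have s2 : r ^ 2 * q ≤ π ^ 2 * (u - v) ^ 2 := by
    have := pow_le_pow_left₀ (by positivity) k2 2
    rw [mul_pow, mul_pow, Real.sq_sqrt hq0.le] at this
    exact this
  have hp2 : 0 < π ^ 2 := by positivity
  have t0 : π ^ 2 * q < 5 * (r ^ 2 * q) := by
    have := mul_lt_mul_of_pos_right h5 hq0
    linarith
  have t1 : q < 5 * v ^ 2 := by
    have : π ^ 2 * q < π ^ 2 * (5 * v ^ 2) := by linarith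
    exact lt_of_mul_lt_mul_left this hp2.le
  have t2 : q < 5 * (u - v) ^ 2 := by
    have : π ^ 2 * q < π ^ 2 * (5 * (u - v) ^ 2) := by linarith
    exact lt_of_mul_lt_mul_left this hp2.le
  have w1 : u < 2 * v := by
    by_contra hh
    rw [not_lt] at hh
    nlinarith
  nlinarith [mul_pos (sub_pos.2 w1) (by linarith : (0 : ℝ) < 2 * u - v)]

/-- only four directions -/
lemma Av.dir (h : Av r x y u v) (hr : 0 < r) (h5 : π ^ 2 < 5 * r ^ 2) :
    u = 0 ∨ v = 0 ∨ u = v ∨ u = -v := by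
  by_contra hc
  simp only [not_or] at hc
  obtain ⟨hu, hv, h1, h2⟩ := hc
  have hne : |u| ≠ |v| := fun he => by
    rcases abs_eq_abs.1 he with he | he
    · exact h1 he
    · exact h2 he
  obtain ⟨x', hx'⟩ : ∃ x', Av r x' y |u| v := by
    rcases abs_choice u with e | e
    · exact ⟨x, by rw [e]; exact h⟩
    · exact ⟨-x, by rw [e]; exact h.neg1⟩
  obtain ⟨y', hy'⟩ : ∃ y', Av r x' y' |u| |v| := by
    rcases abs_choice v with e | e
    · exact ⟨y, by rw [e]; exact hx'⟩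
    · exact ⟨-y, by rw [e]; exact hx'.neg2⟩
  rcases lt_or_gt_of_ne hne with h3 | h3
  · exact noDir (abs_pos.2 hu) h3 hr h5 hy'.swap
  · exact noDir (abs_pos.2 hv) h3 hr h5 hy'

end Pool.Agent.Work.MP_c9f990_an.Tg
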